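import Pool.Agent.H581.KS.Defs

/-!
KS-AB: in the half graph, `P(a_i < b_j) ≥ 1/2 + 1/(8 r^2)` for `j < i`.
-/

set_option autoImplicit false

open Finset

namespace Pool.Agent.H581.KS

open Pool.Agent.H931R3.Bal HG

/-- monotonicity on the half graph -/
theorem mono_iff_AB {r n : ℕ} (f : HG r ≃ Fin n) :
    Monotone f ↔ ∀ k l : Fin r, k ≤ l → f (a k) ≤ f (b l) := by
  constructor
  · intro h k l hkl
    exact h (a_le_b.2 hkl)
  · intro h x y hxy
    cases x with
    | a k => cases y with
      | a l => rw [a_le_a.1 hxy]
      | b l => exact h k l (a_le_b.1 hxy)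
    | b k => cases y with
      | a l => exact absurd hxy b_le_a
      | b l => rw [b_le_b.1 hxy]

theorem swap_AB {r n : ℕ} (i j : Fin r) (h : j < i) (f : LEn (HG r) n)
    (hf : f.1 (b j) < f.1 (a i)) :
    Monotone ((Equiv.swap (a i : HG r) (b j)).trans f.1) := by
  rw [mono_iff_AB]
  intro k l hkl
  have hm := (mono_iff_AB f.1).1 f.2
  simp only [Equiv.trans_apply]
  have hne : (a k : HG r) ≠ b j := by intro hh; cases hh
  have hne2 : (b l : HG r) ≠ a i := by intro hh; cases hh
  by_cases hki : k = i
  · subst hki
    have hlj : l ≠ j := by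
      rintro rfl
      exact absurd (lt_of_lt_of_le h hkl) (lt_irrefl _)
    rw [Equiv.swap_apply_left, Equiv.swap_apply_of_ne_of_ne hne2 (by intro hh; cases hh; exact hlj rfl)]
    exact hf.le.trans (hm k l hkl)
  · rw [Equiv.swap_apply_of_ne_of_ne (by intro hh; cases hh; exact hki rfl) hne]
    by_cases hlj : l = j
    · subst hlj
      rw [Equiv.swap_apply_right]
      exact (hm k l hkl).trans hf.le
    · rw [Equiv.swap_apply_of_ne_of_ne hne2 (by intro hh; cases hh; exact hlj rfl)]
      exact hm k l hkl

theorem cyc_lt {n : ℕ} (p u v : Fin n) (hu : u ≠ p) (hv : v ≠ p) (huv : u < v) :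
    p.cycleRange u < p.cycleRange v := by
  have hn : NeZero n := ⟨by rintro rfl; exact p.elim0⟩
  rw [Fin.lt_def] at huv ⊢
  rcases lt_or_gt_of_ne hv with h1 | h1
  · rw [Fin.coe_cycleRange_of_lt h1, Fin.coe_cycleRange_of_lt (lt_trans (Fin.lt_def.2 huv) h1)]
    omega
  · rw [Fin.cycleRange_of_gt h1]
    rcases lt_or_gt_of_ne hu with h2 | h2
    · rw [Fin.coe_cycleRange_of_lt h2]
      rw [Fin.lt_def] at h1 h2
      omega
    · rw [Fin.cycleRange_of_gt h2]
      exact huv

theorem move_AB {r n : ℕ} (i : Fin r) (f : LEn (HG r) n) :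
    Monotone (f.1.trans (f.1 (a i)).cycleRange) := by
  have hn : NeZero n := ⟨by rintro rfl; exact (f.1 (a i)).elim0⟩
  rw [mono_iff_AB]
  intro k l hkl
  have hm := (mono_iff_AB f.1).1 f.2
  simp only [Equiv.trans_apply]
  have hne2 : f.1 (b l) ≠ f.1 (a i) := by
    intro hh
    have := f.1.injective hh
    cases this
  by_cases hki : k = i
  · subst hki
    rw [Fin.cycleRange_self]
    exact Fin.zero_le _
  · have hne : f.1 (a k) ≠ f.1 (a i) := by
      intro hh
      have := f.1.injective hh
      cases this
      exact hki rfl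
    have hlt : f.1 (a k) < f.1 (b l) := by
      refine lt_of_le_of_ne (hm k l hkl) ?_
      intro hh
      have := f.1.injective hh
      cases this
    exact (cyc_lt _ _ _ hne hne2 hlt).le

theorem pr_ab {r : ℕ} (i j : Fin r) (h : j < i) :
    1 / 2 + 1 / (8 * (r : ℝ) ^ 2) ≤ pr (HG r) (2 * r) (a i) (b j) := by
  classical
  have hr : 0 < r := lt_of_le_of_lt (Nat.zero_le _) i.2
  have hnz : NeZero (2 * r) := ⟨by omega⟩
  set N := Fintype.card (LEn (HG r) (2 * r)) with hN
  set A : Finset (LEn (HG r) (2 * r)) := univ.filter (fun f => f.1 (a i) < f.1 (b j)) with hA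
  set B : Finset (LEn (HG r) (2 * r)) := univ.filter (fun f => f.1 (b j) < f.1 (a i)) with hB
  set X : Finset (LEn (HG r) (2 * r)) := univ.filter (fun f => f.1 (a i) < f.1 (a j)) with hX
  have hAB : A.card + B.card = N := by
    have h1 : A ∪ B = univ := by
      ext f
      simp only [hA, hB, mem_union, mem_filter, mem_univ, true_and, iff_true]
      rcases lt_trichotomy (f.1 (a i)) (f.1 (b j)) with h1 | h1 | h1
      · exact Or.inl h1
      · exfalso
        have := f.1.injective h1
        cases this
      · exact Or.inr h1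
    have h2 : Disjoint A B := by
      rw [Finset.disjoint_left]
      intro f hf hg
      simp only [hA, hB, mem_filter, mem_univ, true_and] at hf hg
      exact lt_asymm hf hg
    rw [← card_union_of_disjoint h2, h1, card_univ]
  have hswap : B.card ≤ (A \ X).card := by
    apply Finset.card_le_card_of_injOn
      (fun f => if hf : f.1 (b j) < f.1 (a i) then
        (⟨(Equiv.swap (a i : HG r) (b j)).trans f.1, swap_AB i j h f hf⟩ : LEn (HG r) (2 * r)) else f)
    · intro f hf
      have hf' : f.1 (b j) < f.1 (a i) := by simpa [hB] using hf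
      simp only [dif_pos hf']
      have hij : (a j : HG r) ≠ a i := by
        intro hh; cases hh; exact lt_irrefl _ h
      rw [Finset.mem_coe, mem_sdiff]
      constructor
      · simp only [hA, mem_filter, mem_univ, true_and, Equiv.trans_apply, Equiv.swap_apply_left,
          Equiv.swap_apply_right]
        exact hf'
      · simp only [hX, mem_filter, mem_univ, true_and, Equiv.trans_apply, Equiv.swap_apply_left,
          Equiv.swap_apply_of_ne_of_ne hij (show (a j : HG r) ≠ b j by intro hh; cases hh), not_lt]
        exact (mono_iff_AB f.1).1 f.2 j j le_rfl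
    · intro f hf g hg hfg
      have hf' : f.1 (b j) < f.1 (a i) := by simpa [hB] using hf
      have hg' : g.1 (b j) < g.1 (a i) := by simpa [hB] using hg
      simp only [dif_pos hf', dif_pos hg'] at hfg
      have h1 := congrArg Subtype.val hfg
      apply Subtype.ext
      ext x
      have h2 := congrArg (fun e => e (Equiv.swap (a i : HG r) (b j) x)) h1
      simp only [Equiv.trans_apply, Equiv.swap_apply_self] at h2
      rw [h2]
  have hXA : X ⊆ A := by
    intro f hf
    simp only [hX, hA, mem_filter, mem_univ, true_and] at hf ⊢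
    exact lt_of_lt_of_le hf ((mono_iff_AB f.1).1 f.2 j j le_rfl)
  have hcard : B.card + X.card ≤ A.card := by
    rw [card_sdiff_of_subset hXA] at hswap
    have := card_le_card hXA
    omega
  have hmove : N ≤ X.card * (2 * r) := by
    have : (univ : Finset (LEn (HG r) (2 * r))).card ≤
        (X ×ˢ (univ : Finset (Fin (2 * r)))).card := by
      apply Finset.card_le_card_of_injOn
        (fun f => ((⟨f.1.trans (f.1 (a i)).cycleRange, move_AB i f⟩ : LEn (HG r) (2 * r)),
          f.1 (a i)))
      · intro f _
        simp only [coe_product, coe_univ, Set.mem_prod, Set.mem_univ, and_true, Finset.mem_coe]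
        simp only [hX, mem_filter, mem_univ, true_and, Equiv.trans_apply, Fin.cycleRange_self]
        rw [Fin.pos_iff_ne_zero]
        intro h0
        rw [← Fin.cycleRange_self (f.1 (a i))] at h0
        have h1 := (f.1 (a i)).cycleRange.injective h0
        have h2 := f.1.injective h1
        cases h2
        exact lt_irrefl _ h
      · intro f _ g _ hfg
        simp only [Prod.mk.injEq] at hfg
        obtain ⟨h1, h2⟩ := hfg
        have h3 := congrArg Subtype.val h1
        simp only at h3
        rw [h2] at h3
        apply Subtype.ext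
        ext x
        have h4 := congrArg (fun e => e x) h3
        simp only [Equiv.trans_apply] at h4
        rw [(g.1 (a i)).cycleRange.injective h4]
    rw [card_product, card_univ, card_univ, Fintype.card_fin] at this
    exact this
  have hpr : pr (HG r) (2 * r) (a i) (b j) = (A.card : ℝ) / N := by
    unfold pr
    rw [Finset.sum_ite, Finset.sum_const_zero, add_zero, Finset.sum_const, nsmul_eq_mul, mul_one]
  have hNpos : (0 : ℝ) < N := by
    have := LEn_nonempty (card_HG r)
    exact_mod_cast Fintype.card_pos
  rw [hpr]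
  have e1 : (N : ℝ) ≤ X.card * (2 * r) := by exact_mod_cast hmove
  have e2 : (B.card : ℝ) + X.card ≤ A.card := by exact_mod_cast hcard
  have e3 : (A.card : ℝ) + B.card = N := by exact_mod_cast hAB
  have hr1 : (1 : ℝ) ≤ r := by exact_mod_cast hr
  have hr0 : (0 : ℝ) < r := by linarith
  have e4 : (N : ℝ) * (1 / (4 * r)) ≤ X.card / 2 := by
    rw [mul_one_div, div_le_iff₀ (by positivity)]
    linarith
  have e5 : 1 / (8 * (r : ℝ) ^ 2) ≤ 1 / (4 * r) := by
    apply one_div_le_one_div_of_le (by positivity)
    nlinarith
  rw [le_div_iff₀ hNpos]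
  have e6 : 1 / (8 * (r : ℝ) ^ 2) * N ≤ 1 / (4 * r) * N :=
    mul_le_mul_of_nonneg_right e5 hNpos.le
  linarith

end Pool.Agent.H581.KS
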