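import Mathlib
import Pool.Agent.H931R3.Bal2

/-!
Definitions for the upper bound `δ_w ≤ 1/2 - c log w / w` (MP_c890a7_co).
-/

set_option autoImplicit false

open Finset

namespace Pool.Agent.H581.KS

open Pool.Agent.H931R3.Bal

/-- average height of `x` in a random linear extension, positions counted from `1` -/
noncomputable def ht (P : Type) [Fintype P] [PartialOrder P] (x : P) : ℝ :=
  avg P (Fintype.card P) x (fun i => (i : ℝ) + 1)

/-- all incomparable pairs are `ε`-unbalanced -/
def Good (P : Type) [Fintype P] [PartialOrder P] (ε : ℝ) : Prop :=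
  ∀ x y : P, ¬ x ≤ y → ¬ y ≤ x → ε ≤ |pr P (Fintype.card P) x y - 1 / 2|

/-- `P` has width `w` -/
def HasWidth (P : Type) [PartialOrder P] (w : ℕ) : Prop :=
  (∃ s : Finset P, IsAntichain (· ≤ ·) (s : Set P) ∧ s.card = w) ∧
    ∀ s : Finset P, IsAntichain (· ≤ ·) (s : Set P) → s.card ≤ w

/-- there is a poset with `n` elements and width `w` all of whose incomparable pairs are
`ε`-unbalanced and such that the co-heights `n + 1 - ht x` of its elements lie in `S` -/
def Ex (ε : ℝ) (w n : ℕ) (S : Set ℝ) : Prop :=
  ∃ (P : Type) (_ : Fintype P) (_ : PartialOrder P), Fintype.card P = n ∧ HasWidth P w ∧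
    Good P ε ∧ ∀ x : P, (n : ℝ) + 1 - ht P x ∈ S

/-- the half graph -/
inductive HG (r : ℕ) : Type
  | a : Fin r → HG r
  | b : Fin r → HG r

namespace HG

variable {r : ℕ}

/-- the half graph as a sum -/
def eqv (r : ℕ) : HG r ≃ Fin r ⊕ Fin r where
  toFun x := match x with
    | a i => Sum.inl i
    | b i => Sum.inr i
  invFun x := match x with
    | Sum.inl i => a i
    | Sum.inr i => b i
  left_inv x := by cases x <;> rfl
  right_inv x := by cases x <;> rfl

instance (r : ℕ) : Fintype (HG r) := Fintype.ofEquiv (Fin r ⊕ Fin r) (eqv r).symm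

instance (r : ℕ) : DecidableEq (HG r) := (eqv r).decidableEq

theorem card_HG (r : ℕ) : Fintype.card (HG r) = 2 * r := by
  rw [Fintype.card_congr (eqv r)]
  simp
  ring

/-- the order of the half graph: `a i ≤ b j` if and only if `i ≤ j` -/
instance (r : ℕ) : PartialOrder (HG r) where
  le x y := match x, y with
    | a i, a j => i = j
    | b i, b j => i = j
    | a i, b j => i ≤ j
    | b _, a _ => False
  le_refl x := by cases x <;> rfl
  le_trans x y z := by
    cases x <;> cases y <;> cases z <;> intro h1 h2
    all_goals first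
      | exact h1.trans h2
      | exact h1.trans_le h2
      | exact h2 ▸ h1
      | exact absurd h1 id
      | exact absurd h2 id
  le_antisymm x y := by
    cases x <;> cases y <;> intro h1 h2
    all_goals first
      | exact congrArg _ h1
      | exact absurd h1 id
      | exact absurd h2 id

theorem a_le_a {i j : Fin r} : (a i : HG r) ≤ a j ↔ i = j := Iff.rfl
theorem b_le_b {i j : Fin r} : (b i : HG r) ≤ b j ↔ i = j := Iff.rfl
theorem a_le_b {i j : Fin r} : (a i : HG r) ≤ b j ↔ i ≤ j := Iff.rfl
theorem b_le_a {i j : Fin r} : ¬ ((b i : HG r) ≤ a j) := id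

/-- the duality `a i ↔ b (rev i)` -/
def dl : HG r → HG r
  | a i => b i.rev
  | b i => a i.rev

theorem dl_dl (x : HG r) : dl (dl x) = x := by cases x <;> simp [dl]

end HG

/-- A bijection to `Fin n` is determined by its values on `T` and the relative order of the
other elements. -/
theorem det {P : Type} {n : ℕ} (f f' : P ≃ Fin n) (T : Set P) (hT : ∀ x ∈ T, f x = f' x)
    (h : ∀ x y, x ∉ T → y ∉ T → f x < f y → f' x < f' y) : f = f' := by
  by_contra hne
  have hex : ∃ k : ℕ, ∃ hk : k < n, f.symm ⟨k, hk⟩ ≠ f'.symm ⟨k, hk⟩ := by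
    by_contra hc
    push Not at hc
    apply hne
    have : f.symm = f'.symm := by
      ext i
      exact hc i.1 i.2
    have h2 := congrArg Equiv.symm this
    simpa using h2
  classical
  obtain ⟨hk, hk2⟩ := Nat.find_spec hex
  have hmin : ∀ i : Fin n, i < ⟨Nat.find hex, hk⟩ → f.symm i = f'.symm i := by
    intro i hi
    by_contra hc
    exact Nat.find_min hex hi ⟨i.2, hc⟩
  set i0 : Fin n := ⟨Nat.find hex, hk⟩ with hi0
  set x := f.symm i0 with hx
  set x' := f'.symm i0 with hx'
  have fx : f x = i0 := by simp [hx]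
  have fx' : f' x' = i0 := by simp [hx']
  have h1 : x ∉ T := fun hxT => hk2 (by
    have := hT x hxT
    rw [fx] at this
    show x = x'
    rw [hx', this]; simp)
  have h2 : x' ∉ T := fun hxT => hk2 (by
    have := hT x' hxT
    rw [fx'] at this
    show x = x'
    rw [hx, ← this]; simp)
  have h3 : i0 < f' x := by
    rcases lt_trichotomy (f' x) i0 with hlt | heq | hgt
    · exfalso
      have := hmin _ hlt
      rw [Equiv.symm_apply_apply] at this
      have h4 : f' x = f x := f.symm_apply_eq.1 this
      rw [h4, fx] at hlt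
      exact lt_irrefl _ hlt
    · exfalso
      apply hk2
      show x = x'
      rw [hx', ← heq]; simp
    · exact hgt
  rcases lt_trichotomy (f x) (f x') with hlt | heq | hgt
  · have := h x x' h1 h2 hlt
    rw [fx'] at this
    exact lt_asymm this h3
  · exact hk2 (f.injective heq)
  · rw [fx] at hgt
    have h5 := hmin _ hgt
    rw [Equiv.symm_apply_apply] at h5
    have h6 : f' x' = f x' := (f'.symm_apply_eq.1 h5.symm).symm
    rw [← h6, fx'] at hgt
    exact lt_irrefl _ hgt

end Pool.Agent.H581.KS
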