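import Mathlib
import Pool.Agent.H581.KS.Defs

/-! Piece KS-CNT1: `(r + 1) (r + 2) e(H_r) ≤ 2 e(H_{r+1})`. -/

set_option autoImplicit false

open Finset

namespace Pool.Agent.H581.KS

open Pool.Agent.H931R3.Bal HG

namespace Cnt1

/-- the new positions -/
def phi {r : ℕ} (i j : Fin (r + 1)) (g : HG r ≃ Fin (2 * r)) : HG (r + 1) → ℕ
  | a x => Fin.insertNth (α := fun _ => ℕ) i 0 (fun k => (g (a k) : ℕ) + 1) x
  | b y => Fin.insertNth (α := fun _ => ℕ) j (2 * r + 1) (fun l => (g (b l) : ℕ) + 1) y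

lemma phi_a_same {r : ℕ} (i j : Fin (r + 1)) (g : HG r ≃ Fin (2 * r)) :
    phi i j g (a i) = 0 := Fin.insertNth_apply_same (α := fun _ => ℕ) i _ _

lemma phi_b_same {r : ℕ} (i j : Fin (r + 1)) (g : HG r ≃ Fin (2 * r)) :
    phi i j g (b j) = 2 * r + 1 := Fin.insertNth_apply_same (α := fun _ => ℕ) j _ _

lemma phi_a {r : ℕ} (i j : Fin (r + 1)) (g : HG r ≃ Fin (2 * r)) (k : Fin r) :
    phi i j g (a (i.succAbove k)) = (g (a k) : ℕ) + 1 :=
  Fin.insertNth_apply_succAbove (α := fun _ => ℕ) i _ _ k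

lemma phi_b {r : ℕ} (i j : Fin (r + 1)) (g : HG r ≃ Fin (2 * r)) (k : Fin r) :
    phi i j g (b (j.succAbove k)) = (g (b k) : ℕ) + 1 :=
  Fin.insertNth_apply_succAbove (α := fun _ => ℕ) j _ _ k

/-- case distinction for an element of `HG (r + 1)` -/
lemma cases4 {r : ℕ} (i j : Fin (r + 1)) (z : HG (r + 1)) :
    z = a i ∨ z = b j ∨ (∃ k : Fin r, z = a (i.succAbove k)) ∨ ∃ k : Fin r, z = b (j.succAbove k) := by
  rcases z with x | y
  · rcases eq_or_ne x i with h | h
    · exact Or.inl (by rw [h])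
    · obtain ⟨k, hk⟩ := Fin.exists_succAbove_eq h
      exact Or.inr (Or.inr (Or.inl ⟨k, by rw [hk]⟩))
  · rcases eq_or_ne y j with h | h
    · exact Or.inr (Or.inl (by rw [h]))
    · obtain ⟨k, hk⟩ := Fin.exists_succAbove_eq h
      exact Or.inr (Or.inr (Or.inr ⟨k, by rw [hk]⟩))

lemma phi_lt {r : ℕ} (i j : Fin (r + 1)) (g : HG r ≃ Fin (2 * r)) (z : HG (r + 1)) :
    phi i j g z < 2 * (r + 1) := by
  rcases cases4 i j z with h | h | ⟨k, h⟩ | ⟨k, h⟩ <;> rw [h]
  · rw [phi_a_same]; omega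
  · rw [phi_b_same]; omega
  · rw [phi_a]; have := (g (a k)).2; omega
  · rw [phi_b]; have := (g (b k)).2; omega

lemma phi_inj {r : ℕ} (i j : Fin (r + 1)) (g : HG r ≃ Fin (2 * r)) :
    Function.Injective (phi i j g) := by
  intro z w h
  rcases cases4 i j z with hz | hz | ⟨k, hz⟩ | ⟨k, hz⟩ <;>
    rcases cases4 i j w with hw | hw | ⟨l, hw⟩ | ⟨l, hw⟩ <;> rw [hz, hw] at h ⊢ <;>
    simp only [phi_a_same, phi_b_same, phi_a, phi_b] at h
  · omega
  · omega
  · omega
  · omega
  · have := (g (a l)).2; omega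
  · have := (g (b l)).2; omega
  · omega
  · have := (g (a k)).2; omega
  · have h1 : g (a k) = g (a l) := Fin.ext (by omega)
    have h2 := g.injective h1
    injection h2 with h3
    rw [h3]
  · have h1 : g (a k) = g (b l) := Fin.ext (by omega)
    have h2 := g.injective h1
    exact absurd h2 (by simp)
  · omega
  · have := (g (b k)).2; omega
  · have h1 : g (b k) = g (a l) := Fin.ext (by omega)
    have h2 := g.injective h1
    exact absurd h2 (by simp)
  · have h1 : g (b k) = g (b l) := Fin.ext (by omega)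
    have h2 := g.injective h1
    injection h2 with h3
    rw [h3]

lemma succAbove_le {r : ℕ} {i j : Fin (r + 1)} (hij : i ≤ j) {k l : Fin r}
    (h : i.succAbove k ≤ j.succAbove l) : k ≤ l := by
  by_contra hc
  push Not at hc
  rw [Fin.lt_def] at hc
  rw [Fin.le_def] at h hij
  simp only [Fin.succAbove, Fin.lt_def, Fin.val_castSucc] at h
  split_ifs at h with h1 h2 <;> simp at h <;> omega

/-- the new linear extension -/
noncomputable def ext {r : ℕ} (i j : Fin (r + 1)) (hij : i ≤ j) (g : LEn (HG r) (2 * r)) :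
    LEn (HG (r + 1)) (2 * (r + 1)) :=
  ⟨Equiv.ofBijective (fun z => (⟨phi i j g.1 z, phi_lt i j g.1 z⟩ : Fin (2 * (r + 1))))
    ((Fintype.bijective_iff_injective_and_card _).2
      ⟨fun z w h => phi_inj i j g.1 (Fin.mk.inj_iff.1 h), by rw [card_HG]; simp⟩), by
    intro z w h
    show phi i j g.1 z ≤ phi i j g.1 w
    rcases z with x | x <;> rcases w with y | y
    · have h' : x = y := h
      rw [h']
    · have h' : x ≤ y := h
      rcases eq_or_ne x i with hx | hx
      · rw [hx, phi_a_same]; exact Nat.zero_le _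
      · obtain ⟨k, hk⟩ := Fin.exists_succAbove_eq hx
        rcases eq_or_ne y j with hy | hy
        · rw [hy, phi_b_same, ← hk, phi_a]
          have := (g.1 (a k)).2; omega
        · obtain ⟨l, hl⟩ := Fin.exists_succAbove_eq hy
          rw [← hk, ← hl] at h'
          have h3 := succAbove_le hij h'
          rw [← hk, ← hl, phi_a, phi_b]
          have h4 : g.1 (a k) ≤ g.1 (b l) := g.2 h3
          rw [Fin.le_def] at h4
          omega
    · exact absurd h id
    · have h' : x = y := h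
      rw [h']⟩

lemma ext_apply {r : ℕ} (i j : Fin (r + 1)) (hij : i ≤ j) (g : LEn (HG r) (2 * r))
    (z : HG (r + 1)) : (((ext i j hij g).1 z : Fin (2 * (r + 1))) : ℕ) = phi i j g.1 z := rfl

/-- the pairs `i ≤ j` together with a linear extension -/
noncomputable def tot {r : ℕ} (z : (Σ j : Fin (r + 1), Fin ((j : ℕ) + 1)) × LEn (HG r) (2 * r)) :
    LEn (HG (r + 1)) (2 * (r + 1)) :=
  ext ⟨z.1.2, lt_of_lt_of_le z.1.2.2 z.1.1.2⟩ z.1.1 (Nat.lt_succ_iff.1 z.1.2.2) z.2

lemma tot_inj {r : ℕ} : Function.Injective (tot (r := r)) := by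
  rintro ⟨⟨j, i⟩, g⟩ ⟨⟨j', i'⟩, g'⟩ h
  have hv : ∀ z, phi (⟨i, lt_of_lt_of_le i.2 j.2⟩ : Fin (r + 1)) j g.1 z =
      phi (⟨i', lt_of_lt_of_le i'.2 j'.2⟩ : Fin (r + 1)) j' g'.1 z := by
    intro z
    have h1 := congrArg (fun e : LEn (HG (r + 1)) (2 * (r + 1)) =>
      ((e.1 z : Fin (2 * (r + 1))) : ℕ)) h
    exact h1
  have hj : j = j' := by
    by_contra hne
    obtain ⟨k, hk⟩ := Fin.exists_succAbove_eq hne
    have h1 := hv (b j)
    rw [phi_b_same, ← hk, phi_b] at h1
    have := (g'.1 (b k)).2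
    omega
  subst hj
  have hi : (i : ℕ) = i' := by
    by_contra hne
    have hne' : (⟨i, lt_of_lt_of_le i.2 j.2⟩ : Fin (r + 1)) ≠ ⟨i', lt_of_lt_of_le i'.2 j.2⟩ :=
      fun h => hne (Fin.mk.inj_iff.1 h)
    obtain ⟨k, hk⟩ := Fin.exists_succAbove_eq hne'
    have h1 := hv (a ⟨i, lt_of_lt_of_le i.2 j.2⟩)
    rw [phi_a_same, ← hk, phi_a] at h1
    omega
  have hi' : i = i' := Fin.ext hi
  subst hi'
  have hg : g = g' := by
    apply Subtype.ext
    apply Equiv.ext
    intro z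
    apply Fin.ext
    rcases z with k | k
    · have h1 := hv (a ((⟨i, lt_of_lt_of_le i.2 j.2⟩ : Fin (r + 1)).succAbove k))
      rw [phi_a, phi_a] at h1
      omega
    · have h1 := hv (b (j.succAbove k))
      rw [phi_b, phi_b] at h1
      omega
  rw [hg]

lemma card_pairs (r : ℕ) : 2 * Fintype.card (Σ j : Fin (r + 1), Fin ((j : ℕ) + 1)) =
    (r + 1) * (r + 2) := by
  rw [Fintype.card_sigma]
  simp only [Fintype.card_fin]
  rw [Fin.sum_univ_eq_sum_range (fun j => j + 1) (r + 1)]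
  induction r with
  | zero => simp
  | succ r ih =>
    rw [Finset.sum_range_succ, mul_add, ih]
    ring

end Cnt1

open Cnt1 in
/-- `(r + 1) (r + 2) e(H_r) ≤ 2 e(H_{r+1})` for the half graphs -/
theorem card_succ (r : ℕ) : (r + 1) * (r + 2) * Fintype.card (LEn (HG r) (2 * r)) ≤
    2 * Fintype.card (LEn (HG (r + 1)) (2 * (r + 1))) := by
  have h := Fintype.card_le_of_injective _ (tot_inj (r := r))
  rw [Fintype.card_prod] at h
  rw [← card_pairs, mul_assoc]
  exact Nat.mul_le_mul_left 2 h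

end Pool.Agent.H581.KS
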