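import Pool.Agent.H581.KS.Defs

/-!
KS-CNT3: moving a minimal element to the front; the mean of a spread distribution.
-/

set_option autoImplicit false

open Finset

namespace Pool.Agent.H581.KS

open Pool.Agent.H931R3.Bal

theorem card_at {P : Type} [Fintype P] [PartialOrder P] {n : ℕ} (hn : Fintype.card P = n) (x : P)
    (hx : ∀ y, y ≤ x → y = x) (t : ℕ) :
    Nat.card {f : LEn P n // ((f.1 x : Fin n) : ℕ) = t} ≤
      Nat.card {f : LEn P n // ((f.1 x : Fin n) : ℕ) = 0} := by
  classical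
  -- the ranking with `x` in front
  have hex : ∀ f : LEn P n, ∃ σ : LEn P n, ((σ.1 x : Fin n) : ℕ) = 0 ∧
      ∀ y z, y ≠ x → z ≠ x → (σ.1 y < σ.1 z ↔ f.1 y < f.1 z) := by
    intro f
    let g : P → ℕ := fun z => if z = x then 0 else ((f.1 z : Fin n) : ℕ) + 1
    have hgx : g x = 0 := by simp [g]
    have hgz : ∀ z, z ≠ x → g z = ((f.1 z : Fin n) : ℕ) + 1 := fun z hz => by simp [g, hz]
    have hg : Function.Injective g := by
      intro y z h
      by_cases hy : y = x
      · by_cases hz : z = x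
        · rw [hy, hz]
        · rw [hy, hgx, hgz z hz] at h
          omega
      · by_cases hz : z = x
        · rw [hz, hgx, hgz y hy] at h
          omega
        · rw [hgz y hy, hgz z hz] at h
          exact f.1.injective (Fin.ext (by omega))
    obtain ⟨σ, hσ⟩ := exists_rank g hg hn
    have hcmp : ∀ y z, y ≠ x → z ≠ x → (σ y < σ z ↔ f.1 y < f.1 z) := by
      intro y z hy hz
      rw [hσ, hgz y hy, hgz z hz, Fin.lt_def]
      omega
    refine ⟨⟨σ, ?_⟩, ?_, hcmp⟩
    · refine mono_of_lt fun y z hyz => ?_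
      have hz : z ≠ x := by
        rintro rfl
        exact hyz.ne (hx y hyz.le)
      by_cases hy : y = x
      · rw [hσ, hy, hgx, hgz z hz]
        omega
      · exact (hcmp y z hy hz).2 (lt_of_mono f.2 hyz)
    · change ((σ x : Fin n) : ℕ) = 0
      have h0 : 0 < n := lt_of_le_of_lt (Nat.zero_le _) (σ x).2
      by_contra hne
      have h1 : σ (σ.symm ⟨0, h0⟩) < σ x := by
        rw [Equiv.apply_symm_apply, Fin.lt_def]
        exact Nat.pos_of_ne_zero hne
      rw [hσ, hgx] at h1
      omega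
  choose F hF0 hF using hex
  let G : {f : LEn P n // ((f.1 x : Fin n) : ℕ) = t} → {f : LEn P n // ((f.1 x : Fin n) : ℕ) = 0} :=
    fun f => ⟨F f.1, hF0 f.1⟩
  refine Nat.card_le_card_of_injective G ?_
  rintro ⟨f, hf⟩ ⟨f', hf'⟩ h
  have h1 : F f = F f' := congrArg Subtype.val h
  apply Subtype.ext
  apply Subtype.ext
  refine det f.1 f'.1 {x} ?_ ?_
  · intro y hy
    rw [Set.mem_singleton_iff] at hy
    rw [hy]
    exact Fin.ext (by rw [hf, hf'])
  · intro y z hy hz hlt
    rw [Set.mem_singleton_iff] at hy hz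
    rw [← hF f' y z hy hz, ← h1, hF f y z hy hz]
    exact hlt

theorem cnt3_gauss (k : ℕ) : ∑ t ∈ range k, ((k : ℝ) - 1 - t) = k * (k - 1) / 2 := by
  have h1 : ∀ m : ℕ, ∑ t ∈ range m, (t : ℝ) = m * (m - 1) / 2 := by
    intro m
    induction m with
    | zero => simp
    | succ m ih =>
      rw [sum_range_succ, ih]
      push_cast
      ring
  rw [sum_sub_distrib, h1, sum_const, card_range, nsmul_eq_mul]
  ring

theorem mean_ge {P : Type} [Fintype P] [PartialOrder P] {n : ℕ} (hn : Fintype.card P = n) (x : P)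
    (c : ℝ) (hc : 0 < c) (h : ∀ t : ℕ, c * Nat.card {f : LEn P n // ((f.1 x : Fin n) : ℕ) = t} ≤
      Fintype.card (LEn P n)) : c / 2 ≤ ht P x := by
  classical
  subst hn
  set N : ℝ := (Fintype.card (LEn P (Fintype.card P)) : ℝ) with hN
  have hN0 : 0 < N := by
    have h1 := card_ne (P := P) rfl
    have h2 : (0 : ℝ) ≤ N := Nat.cast_nonneg _
    exact lt_of_le_of_ne h2 (Ne.symm h1)
  set k : ℕ := ⌈c⌉₊ with hk
  have hck : c ≤ k := Nat.le_ceil c
  have hkc : (k : ℝ) < c + 1 := Nat.ceil_lt_add_one hc.le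
  have key : ∀ f : LEn P (Fintype.card P), (k : ℝ) - ∑ t ∈ range k,
      (if ((f.1 x : Fin _) : ℕ) = t then ((k : ℝ) - 1 - t) else 0) ≤
        (((f.1 x : Fin _) : ℕ) : ℝ) + 1 := by
    intro f
    rw [sum_ite_eq]
    split_ifs with hm
    · linarith
    · rw [mem_range, not_lt] at hm
      have h2 : (k : ℝ) ≤ (((f.1 x : Fin _) : ℕ) : ℝ) := by exact_mod_cast hm
      linarith
  have hsum := sum_le_sum fun (f : LEn P (Fintype.card P)) (_ : f ∈ univ) => key f
  rw [sum_sub_distrib, sum_comm, sum_const, card_univ, nsmul_eq_mul, ← hN] at hsum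
  have hX : ∀ t ∈ range k, ∑ f : LEn P (Fintype.card P),
      (if ((f.1 x : Fin _) : ℕ) = t then ((k : ℝ) - 1 - t) else 0) ≤
        (N / c) * ((k : ℝ) - 1 - t) := by
    intro t ht
    rw [mem_range] at ht
    have h1 : (0 : ℝ) ≤ (k : ℝ) - 1 - t := by
      have : ((t + 1 : ℕ) : ℝ) ≤ k := by exact_mod_cast ht
      push_cast at this
      linarith
    rw [← sum_filter, sum_const, nsmul_eq_mul]
    refine mul_le_mul_of_nonneg_right ?_ h1
    have h2 := h t
    rw [Nat.card_eq_fintype_card, Fintype.card_subtype] at h2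
    rw [le_div_iff₀ hc, mul_comm]
    exact h2
  have hX2 := sum_le_sum hX
  rw [← mul_sum, cnt3_gauss] at hX2
  have h3 : (N / c) * ((k : ℝ) * (k - 1) / 2) ≤ N * k / 2 := by
    have h4 : (k : ℝ) - 1 ≤ c := by linarith
    have h5 : (0 : ℝ) ≤ N * k / 2 := by positivity
    calc (N / c) * ((k : ℝ) * (k - 1) / 2) = (N * k / 2) * ((k - 1) / c) := by
          field_simp
      _ ≤ (N * k / 2) * 1 := by
          refine mul_le_mul_of_nonneg_left ?_ h5
          rw [div_le_one hc]
          exact h4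
      _ = N * k / 2 := mul_one _
  unfold ht avg
  rw [le_div_iff₀ hN0]
  have h6 : c * N ≤ k * N := mul_le_mul_of_nonneg_right hck hN0.le
  linarith

end Pool.Agent.H581.KS
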