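import Pool.Agent.H581.KS.Defs

/-!
KS-HALF: the chain and the half graph as building blocks.
-/

set_option autoImplicit false

open Finset

namespace Pool.Agent.H581.KS

open Pool.Agent.H931R3.Bal HG

namespace HALF

theorem avg_le {P : Type} [Fintype P] [PartialOrder P] {n : ℕ} (hn : Fintype.card P = n) (x : P)
    (φ : ℕ → ℝ) (u : ℝ) (h : ∀ f : LEn P n, φ (f.1 x) ≤ u) : avg P n x φ ≤ u := by
  unfold avg
  have h1 := card_ne hn
  have h2 : (0 : ℝ) < Fintype.card (LEn P n) := lt_of_le_of_ne (Nat.cast_nonneg _) h1.symm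
  rw [div_le_iff₀ h2]
  calc ∑ f : LEn P n, φ (f.1 x) ≤ ∑ f : LEn P n, u := Finset.sum_le_sum fun f _ => h f
    _ = u * Fintype.card (LEn P n) := by
      rw [Finset.sum_const, Finset.card_univ, nsmul_eq_mul, mul_comm]

theorem le_avg {P : Type} [Fintype P] [PartialOrder P] {n : ℕ} (hn : Fintype.card P = n) (x : P)
    (φ : ℕ → ℝ) (u : ℝ) (h : ∀ f : LEn P n, u ≤ φ (f.1 x)) : u ≤ avg P n x φ := by
  unfold avg
  have h1 := card_ne hn
  have h2 : (0 : ℝ) < Fintype.card (LEn P n) := lt_of_le_of_ne (Nat.cast_nonneg _) h1.symm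
  rw [le_div_iff₀ h2]
  calc u * Fintype.card (LEn P n) = ∑ f : LEn P n, u := by
        rw [Finset.sum_const, Finset.card_univ, nsmul_eq_mul, mul_comm]
    _ ≤ ∑ f : LEn P n, φ (f.1 x) := Finset.sum_le_sum fun f _ => h f

theorem ht_mono {P : Type} [Fintype P] [PartialOrder P] {x y : P} (h : x ≤ y) :
    ht P x ≤ ht P y := by
  unfold ht avg
  apply div_le_div_of_nonneg_right _ (Nat.cast_nonneg _)
  apply Finset.sum_le_sum
  intro f _
  have := f.2 h
  rw [Fin.le_def] at this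
  have h2 : (((f.1 x : Fin _) : ℕ) : ℝ) ≤ ((f.1 y : Fin _) : ℕ) := by exact_mod_cast this
  linarith

theorem pr_symm {P : Type} [Fintype P] [PartialOrder P] {n : ℕ} (hn : Fintype.card P = n) (x y : P)
    (h : x ≠ y) : pr P n x y + pr P n y x = 1 := by
  unfold pr
  rw [← add_div, ← Finset.sum_add_distrib]
  have h1 := card_ne hn
  rw [div_eq_one_iff_eq h1]
  have : ∀ f : LEn P n, ((if f.1 x < f.1 y then (1 : ℝ) else 0) +
      if f.1 y < f.1 x then (1 : ℝ) else 0) = 1 := by
    intro f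
    rcases lt_trichotomy (f.1 x) (f.1 y) with h2 | h2 | h2
    · rw [if_pos h2, if_neg (lt_asymm h2)]; norm_num
    · exact absurd (f.1.injective h2) h
    · rw [if_neg (lt_asymm h2), if_pos h2]; norm_num
  rw [Finset.sum_congr rfl (fun f _ => this f), Finset.sum_const, Finset.card_univ, nsmul_eq_mul,
    mul_one]

end HALF

open HALF

theorem ex_chain (ε : ℝ) {q : ℕ} (hq : 1 ≤ q) : Ex ε 1 q {t | 1 ≤ t ∧ t ≤ q} := by
  refine ⟨Fin q, inferInstance, inferInstance, Fintype.card_fin q, ⟨⟨{⟨0, by omega⟩}, ?_, ?_⟩, ?_⟩,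
    ?_, ?_⟩
  · rw [Finset.coe_singleton]
    exact IsAntichain.singleton
  · exact Finset.card_singleton _
  · intro s hs
    rw [Finset.card_le_one]
    intro a ha b hb
    by_contra hne
    rcases le_total a b with h | h
    · exact hs (Finset.mem_coe.2 ha) (Finset.mem_coe.2 hb) hne h
    · exact hs (Finset.mem_coe.2 hb) (Finset.mem_coe.2 ha) (Ne.symm hne) h
  · intro x y h1 h2
    rcases le_total x y with h | h
    · exact absurd h h1
    · exact absurd h h2
  · intro x
    have hc : Fintype.card (Fin q) = q := Fintype.card_fin q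
    have h1 : 1 ≤ ht (Fin q) x := by
      apply le_avg rfl
      intro f
      have : (0 : ℝ) ≤ (((f.1 x : Fin _) : ℕ) : ℝ) := Nat.cast_nonneg _
      linarith
    have h2 : ht (Fin q) x ≤ q := by
      apply avg_le rfl
      intro f
      have : (((f.1 x : Fin _) : ℕ)) + 1 ≤ q := by
        have h3 := (f.1 x).2
        omega
      exact_mod_cast this
    rw [Set.mem_ofPred_eq]
    constructor <;> linarith

/-- `ex_half` from the other pieces -/
theorem ex_half_of
    (hAB : ∀ {r : ℕ} (i j : Fin r), j < i →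
      1 / 2 + 1 / (8 * (r : ℝ) ^ 2) ≤ pr (HG r) (2 * r) (a i) (b j))
    (hAA : ∀ {r : ℕ} (i j : Fin r), i < j →
      1 / 2 + 1 / (8 * (r : ℝ) ^ 2) ≤ pr (HG r) (2 * r) (a i) (a j))
    (hPD : ∀ {r : ℕ} (x y : HG r), pr (HG r) (2 * r) (dl y) (dl x) = pr (HG r) (2 * r) x y)
    (hHD : ∀ {r : ℕ} (x : HG r), ht (HG r) (dl x) = 2 * r + 1 - ht (HG r) x)
    (hW : ∀ r : ℕ, HasWidth (HG r) r)
    (hC1 : ∀ r : ℕ, (r + 1) * (r + 2) * Fintype.card (LEn (HG r) (2 * r)) ≤
      2 * Fintype.card (LEn (HG (r + 1)) (2 * (r + 1))))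
    (hC2 : ∀ (r : ℕ) (i : Fin (r + 1)),
      Nat.card {f : LEn (HG (r + 1)) (2 * (r + 1)) // ((f.1 (a i) : Fin (2 * (r + 1))) : ℕ) = 0} ≤
        (2 * r + 1) * Fintype.card (LEn (HG r) (2 * r)))
    (hC3 : ∀ {P : Type} [Fintype P] [PartialOrder P] {n : ℕ} (_ : Fintype.card P = n) (x : P)
      (_ : ∀ y, y ≤ x → y = x) (t : ℕ),
      Nat.card {f : LEn P n // ((f.1 x : Fin n) : ℕ) = t} ≤
        Nat.card {f : LEn P n // ((f.1 x : Fin n) : ℕ) = 0})
    (hM : ∀ {P : Type} [Fintype P] [PartialOrder P] {n : ℕ} (_ : Fintype.card P = n) (x : P)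
      (c : ℝ) (_ : 0 < c) (_ : ∀ t : ℕ, c * Nat.card {f : LEn P n // ((f.1 x : Fin n) : ℕ) = t} ≤
        Fintype.card (LEn P n)), c / 2 ≤ ht P x)
    {ε : ℝ} {r : ℕ} (hr : 1 ≤ r) (hε : 8 * (r : ℝ) ^ 2 * ε ≤ 1) :
    Ex ε r (2 * r) {t | ((r : ℝ) + 1) / 8 ≤ t ∧ t ≤ 2 * r + 1 - ((r : ℝ) + 1) / 8} := by
  have hr0 : (0 : ℝ) < r := by exact_mod_cast hr
  have hd : ε ≤ 1 / (8 * (r : ℝ) ^ 2) := by
    rw [le_div_iff₀ (by positivity)]
    linarith
  have key : ∀ x y : HG r, x ≠ y →
      (1 / 2 + 1 / (8 * (r : ℝ) ^ 2) ≤ pr (HG r) (2 * r) x y ∨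
        1 / 2 + 1 / (8 * (r : ℝ) ^ 2) ≤ pr (HG r) (2 * r) y x) →
      ε ≤ |pr (HG r) (2 * r) x y - 1 / 2| := by
    intro x y hne h
    have h1 := pr_symm (card_HG r) x y hne
    rw [le_abs]
    rcases h with h | h
    · left; linarith
    · right; linarith
  have hA : ∀ i : Fin r, ((r : ℝ) + 1) / 8 ≤ ht (HG r) (a i) := by
    obtain ⟨s, rfl⟩ : ∃ s, r = s + 1 := ⟨r - 1, by omega⟩
    intro i
    have h0 : ((((s + 1 : ℕ) : ℝ) + 1) / 4) / 2 ≤ ht (HG (s + 1)) (a i) := by
      apply hM (card_HG (s + 1)) (a i) _ (by positivity)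
      intro t
      have hmin : ∀ y : HG (s + 1), y ≤ a i → y = a i := by
        intro y hy
        cases y with
        | a j => exact congrArg _ (a_le_a.1 hy)
        | b j => exact absurd hy b_le_a
      have e1 := hC3 (card_HG (s + 1)) (a i) hmin t
      have e2 := hC2 s i
      have e3 := hC1 s
      have e4 : (Nat.card {f : LEn (HG (s + 1)) (2 * (s + 1)) //
          ((f.1 (a i) : Fin (2 * (s + 1))) : ℕ) = t} : ℝ) ≤
          (2 * s + 1) * (Fintype.card (LEn (HG s) (2 * s)) : ℝ) := by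
        exact_mod_cast e1.trans e2
      have e5 : ((s : ℝ) + 1) * (s + 2) * (Fintype.card (LEn (HG s) (2 * s)) : ℝ) ≤
          2 * (Fintype.card (LEn (HG (s + 1)) (2 * (s + 1))) : ℝ) := by
        exact_mod_cast e3
      have e6 : (0 : ℝ) ≤ (Fintype.card (LEn (HG s) (2 * s)) : ℝ) := Nat.cast_nonneg _
      have e7 : (0 : ℝ) ≤ s := Nat.cast_nonneg _
      push_cast
      calc ((s : ℝ) + 1 + 1) / 4 * (Nat.card {f : LEn (HG (s + 1)) (2 * (s + 1)) //
          ((f.1 (a i) : Fin (2 * (s + 1))) : ℕ) = t} : ℝ) ≤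
          ((s : ℝ) + 1 + 1) / 4 * ((2 * s + 1) * (Fintype.card (LEn (HG s) (2 * s)) : ℝ)) := by
            apply mul_le_mul_of_nonneg_left e4 (by positivity)
        _ ≤ ((s : ℝ) + 1) * (s + 2) * (Fintype.card (LEn (HG s) (2 * s)) : ℝ) / 2 := by
            nlinarith [mul_nonneg e6 e7]
        _ ≤ _ := by linarith
    linarith
  have hB : ∀ x : HG r, ((r : ℝ) + 1) / 8 ≤ ht (HG r) x := by
    intro x
    cases x with
    | a i => exact hA i
    | b j =>
      refine (hA j).trans (ht_mono ?_)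
      exact a_le_b.2 le_rfl
  refine ⟨HG r, inferInstance, inferInstance, card_HG r, hW r, ?_, ?_⟩
  · intro x y h1 h2
    rw [card_HG r]
    have hne : x ≠ y := fun h => h1 (h ▸ le_rfl)
    apply key x y hne
    cases x with
    | a i =>
      cases y with
      | a j =>
        have hij : i ≠ j := fun h => hne (congrArg _ h)
        rcases lt_or_gt_of_ne hij with h | h
        · exact Or.inl (hAA i j h)
        · exact Or.inr (hAA j i h)
      | b j =>
        left
        apply hAB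
        rw [a_le_b] at h1
        exact not_le.1 h1
    | b i =>
      cases y with
      | a j =>
        right
        apply hAB
        rw [a_le_b] at h2
        exact not_le.1 h2
      | b j =>
        have hij : i ≠ j := fun h => hne (congrArg _ h)
        have e1 := hPD (r := r) (b i) (b j)
        have e2 := hPD (r := r) (b j) (b i)
        change pr (HG r) (2 * r) (a j.rev) (a i.rev) = _ at e1
        change pr (HG r) (2 * r) (a i.rev) (a j.rev) = _ at e2
        rw [← e1, ← e2]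
        rcases lt_or_gt_of_ne hij with h | h
        · exact Or.inl (hAA j.rev i.rev (Fin.rev_lt_rev.2 h))
        · exact Or.inr (hAA i.rev j.rev (Fin.rev_lt_rev.2 h))
  · intro x
    have h1 := hB x
    have h2 := hB (dl x)
    rw [hHD] at h2
    rw [Set.mem_ofPred_eq]
    push_cast
    constructor <;> linarith

end Pool.Agent.H581.KS
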