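import Mathlib
import Pool.Agent.H581.KS.Half

/-! From the abstract posets to relations on `Fin n`. -/

set_option autoImplicit false

open Finset
namespace Pool.Agent.H581.KS
open Pool.Agent.H931R3.Bal

/-- the relation on `Fin n` transported from `P` -/
def rel {P : Type} [PartialOrder P] {n : ℕ} (e : P ≃ Fin n) (x y : Fin n) : Prop :=
  e.symm x ≤ e.symm y

theorem card_all {P : Type} [Fintype P] [PartialOrder P] {n : ℕ} (e : P ≃ Fin n) :
    Nat.card {σ : Equiv.Perm (Fin n) // ∀ a b, rel e a b → σ a ≤ σ b} =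
      Fintype.card (LEn P n) := by
  rw [← Nat.card_eq_fintype_card]
  refine Nat.card_congr ⟨fun σ => ⟨e.trans σ.1, ?_⟩, fun f => ⟨e.symm.trans f.1, ?_⟩, ?_, ?_⟩
  · intro x y h
    exact σ.2 (e x) (e y) (by simpa [rel] using h)
  · intro a b h
    exact f.2 h
  · intro σ
    ext x
    simp
  · intro f
    ext x
    simp

theorem card_lt {P : Type} [Fintype P] [PartialOrder P] {n : ℕ} (e : P ≃ Fin n) (x y : Fin n) :
    (Nat.card {σ : Equiv.Perm (Fin n) // (∀ a b, rel e a b → σ a ≤ σ b) ∧ σ x < σ y} : ℝ) =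
      ∑ f : LEn P n, if f.1 (e.symm x) < f.1 (e.symm y) then (1 : ℝ) else 0 := by
  classical
  rw [Finset.sum_boole]
  congr 1
  rw [← Fintype.card_subtype, ← Nat.card_eq_fintype_card]
  refine Nat.card_congr ⟨fun σ => ⟨⟨e.trans σ.1, ?_⟩, ?_⟩, fun f => ⟨e.symm.trans f.1.1, ?_, ?_⟩,
    ?_, ?_⟩
  · intro x y h
    exact σ.2.1 (e x) (e y) (by simpa [rel] using h)
  · simpa using σ.2.2
  · intro a b h
    exact f.1.2 h
  · exact f.2
  · intro σ
    ext x
    simp
  · intro f
    ext x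
    simp

theorem exists_rel {ε : ℝ} {w n : ℕ} {S : Set ℝ} (h : Ex ε w n S) :
    ∃ r : Fin n → Fin n → Prop,
      (∀ a, r a a) ∧ (∀ a b c, r a b → r b c → r a c) ∧
      (∀ a b, r a b → r b a → a = b) ∧
      (∃ s : Finset (Fin n), s.card = w ∧ ∀ a ∈ s, ∀ b ∈ s, a ≠ b → ¬ r a b) ∧
      (∀ s : Finset (Fin n), (∀ a ∈ s, ∀ b ∈ s, a ≠ b → ¬ r a b) → s.card ≤ w) ∧
      ∀ x y : Fin n, ¬ r x y → ¬ r y x → min
              ((Nat.card {σ : Equiv.Perm (Fin n) //
                  (∀ a b, r a b → σ a ≤ σ b) ∧ σ x < σ y} : ℝ) /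
                (Nat.card {σ : Equiv.Perm (Fin n) // ∀ a b, r a b → σ a ≤ σ b} : ℝ))
              ((Nat.card {σ : Equiv.Perm (Fin n) //
                  (∀ a b, r a b → σ a ≤ σ b) ∧ σ y < σ x} : ℝ) /
                (Nat.card {σ : Equiv.Perm (Fin n) // ∀ a b, r a b → σ a ≤ σ b} : ℝ)) ≤
              1 / 2 - ε := by
  classical
  obtain ⟨P, i1, i2, hc, hw, hg, -⟩ := h
  let e : P ≃ Fin n := Fintype.equivFinOfCardEq hc
  refine ⟨rel e, fun a => le_rfl, fun a b c => le_trans, fun a b h1 h2 =>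
    e.symm.injective (le_antisymm h1 h2), ?_, ?_, ?_⟩
  · obtain ⟨s, hs, hsc⟩ := hw.1
    refine ⟨s.map e.toEmbedding, by rw [card_map, hsc], ?_⟩
    intro a ha b hb hab hr
    rw [mem_map_equiv] at ha hb
    exact hs ha hb (fun h => hab (e.symm.injective h)) hr
  · intro s hs
    rw [← card_map e.symm.toEmbedding]
    apply hw.2
    intro a ha b hb hab hr
    rw [mem_coe, mem_map_equiv] at ha hb
    refine hs _ ha _ hb (fun h => hab (by simpa using h)) ?_
    simpa [rel] using hr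
  · intro x y hxy hyx
    rw [card_all, card_lt, card_lt]
    have h1 := hg (e.symm x) (e.symm y) hxy hyx
    rw [hc] at h1
    have hne : e.symm x ≠ e.symm y := fun h => hxy (by show e.symm x ≤ e.symm y; rw [h])
    have h2 := HALF.pr_symm hc (e.symm x) (e.symm y) hne
    change min (pr P n (e.symm x) (e.symm y)) (pr P n (e.symm y) (e.symm x)) ≤ _
    rcases le_abs.1 h1 with h3 | h3
    · exact (min_le_right _ _).trans (by linarith)
    · exact (min_le_left _ _).trans (by linarith)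

end Pool.Agent.H581.KS
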