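import Pool.Agent.H581.KS.Defs

/-!
# Duality of the half graph
-/

set_option autoImplicit false

open Finset

namespace Pool.Agent.H581.KS

open Pool.Agent.H931R3.Bal HG

theorem dl_anti {r : ℕ} {x y : HG r} (h : x ≤ y) : dl y ≤ dl x := by
  cases x with
  | a i =>
    cases y with
    | a j => exact congrArg Fin.rev (show j = i from (a_le_a.1 h).symm)
    | b j => exact a_le_b.2 (Fin.rev_le_rev.2 (a_le_b.1 h))
  | b i =>
    cases y with
    | a j => exact absurd h b_le_a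
    | b j => exact congrArg Fin.rev (show j = i from (b_le_b.1 h).symm)

/-- the duality as a permutation -/
def dlE (r : ℕ) : HG r ≃ HG r where
  toFun := dl
  invFun := dl
  left_inv := dl_dl
  right_inv := dl_dl

/-- the dual linear extension -/
def dE {r n : ℕ} (f : LEn (HG r) n) : LEn (HG r) n :=
  ⟨(dlE r).trans (f.1.trans Fin.revPerm), fun _ _ h => Fin.rev_le_rev.2 (f.2 (dl_anti h))⟩

theorem dE_apply {r n : ℕ} (f : LEn (HG r) n) (x : HG r) : (dE f).1 x = (f.1 (dl x)).rev := rfl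

theorem dE_dl {r n : ℕ} (f : LEn (HG r) n) (x : HG r) : (dE f).1 (dl x) = (f.1 x).rev := by
  rw [dE_apply, dl_dl]

theorem dE_dE {r n : ℕ} (f : LEn (HG r) n) : dE (dE f) = f := by
  apply Subtype.ext
  apply Equiv.ext
  intro x
  rw [dE_apply, dE_dl, Fin.rev_rev]

/-- the duality of linear extensions -/
def dEquiv (r n : ℕ) : LEn (HG r) n ≃ LEn (HG r) n where
  toFun := dE
  invFun := dE
  left_inv := dE_dE
  right_inv := dE_dE

theorem pr_dual {r : ℕ} (x y : HG r) :
    pr (HG r) (2 * r) (dl y) (dl x) = pr (HG r) (2 * r) x y := by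
  unfold pr
  congr 1
  rw [← (dEquiv r (2 * r)).sum_comp]
  refine Finset.sum_congr rfl fun f _ => ?_
  show (if (dE f).1 (dl y) < (dE f).1 (dl x) then (1 : ℝ) else 0) = _
  rw [dE_dl, dE_dl]
  simp only [Fin.rev_lt_rev]

theorem ht_dual {r : ℕ} (x : HG r) : ht (HG r) (dl x) = 2 * r + 1 - ht (HG r) x := by
  have hN := card_ne (P := HG r) (card_HG r)
  unfold ht avg
  rw [card_HG]
  rw [← (dEquiv r (2 * r)).sum_comp]
  have h1 : ∀ f : LEn (HG r) (2 * r),
      ((((dEquiv r (2 * r)) f).1 (dl x) : Fin (2 * r)) : ℕ) + (1 : ℝ) =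
        (2 * (r : ℝ) + 1) - ((((f.1 x : Fin (2 * r)) : ℕ) : ℝ) + 1) := by
    intro f
    show ((((dE f).1 (dl x) : Fin (2 * r)) : ℕ) : ℝ) + 1 = _
    rw [dE_dl, Fin.val_rev]
    have h2 : ((f.1 x : Fin (2 * r)) : ℕ) + 1 ≤ 2 * r := (f.1 x).2
    rw [Nat.cast_sub h2]
    push_cast
    ring
  simp_rw [h1]
  rw [Finset.sum_sub_distrib, Finset.sum_const, Finset.card_univ, nsmul_eq_mul, sub_div,
    mul_comm, mul_div_assoc, div_self hN, mul_one]

end Pool.Agent.H581.KS
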