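import Pool.Agent.H581.KS.Defs

/-!
The half graph has width `r`.
-/

set_option autoImplicit false

open Finset

namespace Pool.Agent.H581.KS

open Pool.Agent.H931R3.Bal HG

/-- the index of an element of the half graph -/
def idxHG {r : ℕ} : HG r → Fin r
  | a i => i
  | b i => i

theorem width_HG (r : ℕ) : HasWidth (HG r) r := by
  constructor
  · refine ⟨Finset.univ.map ⟨fun i : Fin r => (a i : HG r), fun i j h => a_le_a.1 (le_of_eq h)⟩,
      ?_, by simp⟩
    intro x hx y hy hne hle
    simp only [Finset.coe_map, Set.mem_image, Finset.coe_univ, Set.mem_univ, true_and,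
      Function.Embedding.coeFn_mk] at hx hy
    obtain ⟨i, rfl⟩ := hx
    obtain ⟨j, rfl⟩ := hy
    exact hne (congrArg _ (a_le_a.1 hle))
  · intro s hs
    have h : s.card ≤ (Finset.univ : Finset (Fin r)).card := by
      refine Finset.card_le_card_of_injOn idxHG (fun x _ => Finset.mem_univ _) ?_
      intro x hx y hy hxy
      by_contra hne
      cases x with
      | a i =>
        cases y with
        | a j => exact hne (congrArg _ hxy)
        | b j => exact hs hx hy hne (a_le_b.2 (le_of_eq hxy))
      | b i =>
        cases y with
        | a j => exact hs hy hx (Ne.symm hne) (a_le_b.2 (le_of_eq (Eq.symm hxy)))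
        | b j => exact hne (congrArg _ hxy)
    simpa using h

end Pool.Agent.H581.KS
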