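import Pool.Agent.H581.KS.Defs

/-!
Ordinal sums: width, unbalanced pairs, co-heights.
-/

set_option autoImplicit false

open Finset

namespace Pool.Agent.H581.KS

open Pool.Agent.H931R3.Bal HG

theorem width_lex {P Q : Type} [PartialOrder P] [PartialOrder Q] {w v : ℕ} (hP : HasWidth P w)
    (hQ : HasWidth Q v) : HasWidth (P ⊕ₗ Q) (max w v) := by
  classical
  obtain ⟨⟨s, hs, hsc⟩, hP2⟩ := hP
  obtain ⟨⟨t, ht, htc⟩, hQ2⟩ := hQ
  constructor
  · rcases le_total v w with hvw | hvw
    · rw [max_eq_left hvw]
      refine ⟨s.map ⟨fun x : P => (toLex (Sum.inl x) : P ⊕ₗ Q), fun x y h =>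
        Sum.inl_injective (toLex.injective h)⟩, ?_, by rw [Finset.card_map, hsc]⟩
      intro x hx y hy hne hle
      simp only [Finset.coe_map, Set.mem_image, Function.Embedding.coeFn_mk] at hx hy
      obtain ⟨i, hi, rfl⟩ := hx
      obtain ⟨j, hj, rfl⟩ := hy
      exact hs hi hj (fun h => hne (by rw [h])) (Sum.Lex.inl_le_inl_iff.1 hle)
    · rw [max_eq_right hvw]
      refine ⟨t.map ⟨fun x : Q => (toLex (Sum.inr x) : P ⊕ₗ Q), fun x y h =>
        Sum.inr_injective (toLex.injective h)⟩, ?_, by rw [Finset.card_map, htc]⟩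
      intro x hx y hy hne hle
      simp only [Finset.coe_map, Set.mem_image, Function.Embedding.coeFn_mk] at hx hy
      obtain ⟨i, hi, rfl⟩ := hx
      obtain ⟨j, hj, rfl⟩ := hy
      exact ht hi hj (fun h => hne (by rw [h])) (Sum.Lex.inr_le_inr_iff.1 hle)
  · intro u hu
    by_cases hc : ∃ x : P, (toLex (Sum.inl x) : P ⊕ₗ Q) ∈ u
    · obtain ⟨x0, hx0⟩ := hc
      have hno : ∀ y : Q, (toLex (Sum.inr y) : P ⊕ₗ Q) ∉ u := by
        intro y hy
        exact hu hx0 hy (fun h => by simpa using toLex.injective h) (Sum.Lex.inl_le_inr x0 y)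
      have h1 : u ⊆ (u.preimage (fun x : P => (toLex (Sum.inl x) : P ⊕ₗ Q))
          (fun x _ y _ h => Sum.inl_injective (toLex.injective h))).map
          ⟨fun x : P => (toLex (Sum.inl x) : P ⊕ₗ Q), fun x y h =>
            Sum.inl_injective (toLex.injective h)⟩ := by
        intro z hz
        rw [Finset.mem_map]
        rcases hz' : ofLex z with x | y
        · have hzx : z = toLex (Sum.inl x) := by rw [← hz']; rfl
          exact ⟨x, by rw [Finset.mem_preimage, ← hzx]; exact hz, hzx.symm⟩
        · have hzx : z = toLex (Sum.inr y) := by rw [← hz']; rfl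
          exact absurd (hzx ▸ hz) (hno y)
      have h2 := Finset.card_le_card h1
      rw [Finset.card_map] at h2
      refine h2.trans ((hP2 _ ?_).trans (le_max_left _ _))
      intro x hx y hy hne hle
      rw [Finset.mem_coe, Finset.mem_preimage] at hx hy
      exact hu hx hy (fun h => hne (Sum.inl_injective (toLex.injective h)))
        (Sum.Lex.inl_le_inl_iff.2 hle)
    · have h1 : u ⊆ (u.preimage (fun x : Q => (toLex (Sum.inr x) : P ⊕ₗ Q))
          (fun x _ y _ h => Sum.inr_injective (toLex.injective h))).map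
          ⟨fun x : Q => (toLex (Sum.inr x) : P ⊕ₗ Q), fun x y h =>
            Sum.inr_injective (toLex.injective h)⟩ := by
        intro z hz
        rw [Finset.mem_map]
        rcases hz' : ofLex z with x | y
        · have hzx : z = toLex (Sum.inl x) := by rw [← hz']; rfl
          exact absurd ⟨x, hzx ▸ hz⟩ hc
        · have hzx : z = toLex (Sum.inr y) := by rw [← hz']; rfl
          exact ⟨y, by rw [Finset.mem_preimage, ← hzx]; exact hz, hzx.symm⟩
      have h2 := Finset.card_le_card h1
      rw [Finset.card_map] at h2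
      refine h2.trans ((hQ2 _ ?_).trans (le_max_right _ _))
      intro x hx y hy hne hle
      rw [Finset.mem_coe, Finset.mem_preimage] at hx hy
      exact hu hx hy (fun h => hne (Sum.inr_injective (toLex.injective h)))
        (Sum.Lex.inr_le_inr_iff.2 hle)

theorem ex_lex {ε : ℝ} {w v n m : ℕ} {S T : Set ℝ} (h1 : Ex ε w n S) (h2 : Ex ε v m T) :
    Ex ε (max w v) (m + n) {t | t ∈ S ∨ t - n ∈ T} := by
  obtain ⟨P, fP, oP, hPc, hPw, hPg, hPs⟩ := h1
  obtain ⟨Q, fQ, oQ, hQc, hQw, hQg, hQs⟩ := h2
  have hcard : Fintype.card (Q ⊕ₗ P) = m + n := by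
    have : Fintype.card (Q ⊕ₗ P) = Fintype.card (Q ⊕ P) := Fintype.card_congr ofLex
    rw [this, Fintype.card_sum, hPc, hQc]
  refine ⟨Q ⊕ₗ P, inferInstance, inferInstance, hcard, ?_, ?_, ?_⟩
  · rw [max_comm]
    exact width_lex hQw hPw
  · intro x y hxy hyx
    rw [hcard]
    rcases hx' : ofLex x with a | a
    · have hx : x = toLex (Sum.inl a) := by rw [← hx']; rfl
      rcases hy' : ofLex y with b | b
      · have hy : y = toLex (Sum.inl b) := by rw [← hy']; rfl
        subst hx hy
        rw [pr_lex_inl hQc hPc]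
        have := hQg a b (fun h => hxy (Sum.Lex.inl_le_inl_iff.2 h))
          (fun h => hyx (Sum.Lex.inl_le_inl_iff.2 h))
        rwa [hQc] at this
      · have hy : y = toLex (Sum.inr b) := by rw [← hy']; rfl
        subst hx hy
        exact absurd (Sum.Lex.inl_le_inr a b) hxy
    · have hx : x = toLex (Sum.inr a) := by rw [← hx']; rfl
      rcases hy' : ofLex y with b | b
      · have hy : y = toLex (Sum.inl b) := by rw [← hy']; rfl
        subst hx hy
        exact absurd (Sum.Lex.inl_le_inr b a) hyx
      · have hy : y = toLex (Sum.inr b) := by rw [← hy']; rfl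
        subst hx hy
        rw [pr_lex_inr hQc hPc]
        have := hPg a b (fun h => hxy (Sum.Lex.inr_le_inr_iff.2 h))
          (fun h => hyx (Sum.Lex.inr_le_inr_iff.2 h))
        rwa [hPc] at this
  · intro x
    unfold ht
    rw [hcard]
    rcases hx' : ofLex x with a | a
    · have hx : x = toLex (Sum.inl a) := by rw [← hx']; rfl
      subst hx
      right
      have := hQs a
      unfold ht at this
      rw [hQc] at this
      rw [avg_lex_inl hQc hPc]
      push_cast
      rw [show (m : ℝ) + n + 1 - avg Q m a (fun i => (i : ℝ) + 1) - n =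
        m + 1 - avg Q m a (fun i => (i : ℝ) + 1) by ring]
      exact this
    · have hx : x = toLex (Sum.inr a) := by rw [← hx']; rfl
      subst hx
      left
      have := hPs a
      unfold ht at this
      rw [hPc] at this
      rw [avg_lex_inr hQc hPc]
      have h3 : avg P n a (fun i => ((m + i : ℕ) : ℝ) + 1) =
          m + avg P n a (fun i => (i : ℝ) + 1) := by
        unfold avg
        have h4 : (Fintype.card (LEn P n) : ℝ) ≠ 0 := card_ne hPc
        have h5 : ∑ f : LEn P n, (((m + ((f.1 a : Fin n) : ℕ) : ℕ) : ℝ) + 1) =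
            (Fintype.card (LEn P n) : ℝ) * m + ∑ f : LEn P n, ((((f.1 a : Fin n) : ℕ) : ℝ) + 1) := by
          have : ∀ f : LEn P n, (((m + ((f.1 a : Fin n) : ℕ) : ℕ) : ℝ) + 1) =
              (m : ℝ) + ((((f.1 a : Fin n) : ℕ) : ℝ) + 1) := by
            intro f; push_cast; ring
          rw [Finset.sum_congr rfl (fun f _ => this f), Finset.sum_add_distrib, Finset.sum_const,
            Finset.card_univ, nsmul_eq_mul]
        rw [h5]
        field_simp
      rw [h3]
      push_cast
      rw [show (m : ℝ) + n + 1 - (m + avg P n a (fun i => (i : ℝ) + 1)) =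
        n + 1 - avg P n a (fun i => (i : ℝ) + 1) by ring]
      exact this

end Pool.Agent.H581.KS
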