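import Mathlib
import Pool.Agent.H581.KS.Defs

/-!
Parallel sum of a finite poset with a point: width, probabilities and average heights.
-/

set_option autoImplicit false

open Finset

namespace Pool.Agent.H581.KS

open Pool.Agent.H931R3.Bal HG

theorem width_point {P : Type} [PartialOrder P] {w : ℕ} (hP : HasWidth P w) :
    HasWidth (P ⊕ Fin 1) (w + 1) := by
  obtain ⟨⟨s, hs, hsc⟩, hmax⟩ := hP
  refine ⟨⟨s.disjSum {0}, ?_, ?_⟩, ?_⟩
  · intro a ha b hb hab hle
    rcases a with a | a <;> rcases b with b | b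
    · have ha' : a ∈ s := by simpa using ha
      have hb' : b ∈ s := by simpa using hb
      exact hs ha' hb' (fun h => hab (by rw [h])) (Sum.inl_le_inl_iff.1 hle)
    · exact absurd hle Sum.not_inl_le_inr
    · exact absurd hle Sum.not_inr_le_inl
    · exact hab (by rw [Subsingleton.elim a b])
  · rw [Finset.card_disjSum, hsc]
    simp
  · intro t ht
    rw [← Finset.card_toLeft_add_card_toRight]
    have h1 : t.toLeft.card ≤ w := by
      apply hmax
      intro a ha b hb hab hle
      have ha' : Sum.inl a ∈ t := by simpa using ha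
      have hb' : Sum.inl b ∈ t := by simpa using hb
      exact ht ha' hb' (fun h => hab (Sum.inl_injective h)) (Sum.inl_le_inl_iff.2 hle)
    have h2 : t.toRight.card ≤ 1 := by
      have := Finset.card_le_univ t.toRight
      simpa using this
    omega

section point

variable {P : Type} [Fintype P] [PartialOrder P] {n : ℕ}

/-- the linear extension of `P ⊕ Fin 1` with the new point at place `k` -/
noncomputable def ptF (hn : Fintype.card P = n) (f : LEn P n) (k : Fin (n + 1)) :
    LEn (P ⊕ Fin 1) (n + 1) :=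
  ⟨Equiv.ofBijective (Sum.elim (fun x => k.succAbove (f.1 x)) (fun _ => k)) (by
    rw [Fintype.bijective_iff_injective_and_card]
    constructor
    · rintro (a | a) (b | b) h
      · have h : k.succAbove (f.1 a) = k.succAbove (f.1 b) := h
        rw [f.1.injective (Fin.succAbove_right_injective h)]
      · have h : k.succAbove (f.1 a) = k := h
        exact absurd h (Fin.succAbove_ne _ _)
      · have h : k = k.succAbove (f.1 b) := h
        exact absurd h.symm (Fin.succAbove_ne _ _)
      · rw [Subsingleton.elim a b]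
    · simp [hn]), by
    intro a b h
    rcases a with a | a <;> rcases b with b | b
    · show k.succAbove (f.1 a) ≤ k.succAbove (f.1 b)
      rw [Fin.succAbove_le_succAbove_iff]
      exact f.2 (Sum.inl_le_inl_iff.1 h)
    · exact absurd h Sum.not_inl_le_inr
    · exact absurd h Sum.not_inr_le_inl
    · rw [Subsingleton.elim a b]⟩

theorem ptF_inl (hn : Fintype.card P = n) (f : LEn P n) (k : Fin (n + 1)) (x : P) :
    (ptF hn f k).1 (Sum.inl x) = k.succAbove (f.1 x) := rfl

theorem ptF_inr (hn : Fintype.card P = n) (f : LEn P n) (k : Fin (n + 1)) (x : Fin 1) :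
    (ptF hn f k).1 (Sum.inr x) = k := rfl

theorem ptF_bij (hn : Fintype.card P = n) :
    Function.Bijective (fun q : LEn P n × Fin (n + 1) => ptF hn q.1 q.2) := by
  constructor
  · rintro ⟨f, k⟩ ⟨f', k'⟩ h
    have h : ptF hn f k = ptF hn f' k' := h
    have hk : k = k' := by
      rw [← ptF_inr hn f k 0, ← ptF_inr hn f' k' 0, h]
    subst hk
    have hf : f = f' := by
      apply Subtype.ext
      apply Equiv.ext
      intro x
      have h1 : (ptF hn f k).1 (Sum.inl x) = (ptF hn f' k).1 (Sum.inl x) := by rw [h]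
      rw [ptF_inl, ptF_inl] at h1
      exact Fin.succAbove_right_injective h1
    rw [hf]
  · intro g
    have h1 : ∀ x : P, ∃ j : Fin n, (g.1 (Sum.inr 0)).succAbove j = g.1 (Sum.inl x) := by
      intro x
      apply Fin.exists_succAbove_eq
      intro h
      have := g.1.injective h
      simp at this
    choose j hj using h1
    have hjb : Function.Bijective j := by
      rw [Fintype.bijective_iff_injective_and_card]
      constructor
      · intro x y hxy
        have : g.1 (Sum.inl x) = g.1 (Sum.inl y) := by rw [← hj, ← hj, hxy]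
        exact Sum.inl_injective (g.1.injective this)
      · simp [hn]
    refine ⟨(⟨Equiv.ofBijective j hjb, ?_⟩, g.1 (Sum.inr 0)), ?_⟩
    · intro x y hxy
      have h2 : g.1 (Sum.inl x) ≤ g.1 (Sum.inl y) := g.2 (Sum.inl_le_inl_iff.2 hxy)
      rw [← hj, ← hj, Fin.succAbove_le_succAbove_iff] at h2
      exact h2
    · apply Subtype.ext
      apply Equiv.ext
      intro z
      rcases z with z | z
      · exact hj z
      · rw [Subsingleton.elim z 0]
        rfl

theorem card_pt (hn : Fintype.card P = n) :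
    Fintype.card (LEn (P ⊕ Fin 1) (n + 1)) = Fintype.card (LEn P n) * (n + 1) := by
  have := Fintype.card_of_bijective (ptF_bij (P := P) hn)
  rw [← this, Fintype.card_prod, Fintype.card_fin]

theorem sum_pt (hn : Fintype.card P = n) (F : LEn (P ⊕ Fin 1) (n + 1) → ℝ) :
    ∑ f, F f = ∑ f : LEn P n, ∑ k : Fin (n + 1), F (ptF hn f k) := by
  have := (ptF_bij (P := P) hn).sum_comp F
  rw [← this, Fintype.sum_prod_type]

theorem sum_lt (i : Fin n) :
    ∑ k : Fin (n + 1), (if k.succAbove i < k then (1 : ℝ) else 0) = (n : ℝ) - i := by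
  have h : ∀ k : Fin (n + 1), (k.succAbove i < k) ↔ i.castSucc < k := by
    intro k
    exact Fin.succAbove_lt_iff_castSucc_lt k i
  simp_rw [h]
  rw [Finset.sum_boole]
  have : (Finset.univ.filter (fun k : Fin (n + 1) => i.castSucc < k)) = Finset.Ioi i.castSucc := by
    ext k
    simp
  rw [this, Fin.card_Ioi]
  have hi := i.2
  simp only [Fin.val_castSucc]
  rw [show n + 1 - 1 - (i : ℕ) = n - i by omega, Nat.cast_sub hi.le]

theorem sum_gt (i : Fin n) :
    ∑ k : Fin (n + 1), (if k < k.succAbove i then (1 : ℝ) else 0) = (i : ℝ) + 1 := by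
  have h : ∀ k : Fin (n + 1), (if k < k.succAbove i then (1 : ℝ) else 0) =
      1 - (if k.succAbove i < k then (1 : ℝ) else 0) := by
    intro k
    rcases lt_trichotomy k (k.succAbove i) with h1 | h1 | h1
    · rw [if_pos h1, if_neg (lt_asymm h1)]
      ring
    · exact absurd h1.symm (Fin.succAbove_ne _ _)
    · rw [if_pos h1, if_neg (lt_asymm h1)]
      ring
  simp_rw [h]
  rw [Finset.sum_sub_distrib, sum_lt]
  simp
  ring

theorem sum_val (i : Fin n) :
    ∑ k : Fin (n + 1), (((k.succAbove i : Fin (n + 1)) : ℕ) + 1 : ℝ) =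
      ((i : ℝ) + 1) * (n + 2) := by
  have h : ∀ k : Fin (n + 1), (((k.succAbove i : Fin (n + 1)) : ℕ) + 1 : ℝ) =
      (i : ℝ) + 1 + (if k < k.succAbove i then (1 : ℝ) else 0) := by
    intro k
    rcases lt_trichotomy k (k.succAbove i) with h1 | h1 | h1
    · rw [if_pos h1]
      rw [Fin.lt_succAbove_iff_le_castSucc] at h1
      rw [Fin.succAbove_of_le_castSucc _ _ h1]
      simp
    · exact absurd h1.symm (Fin.succAbove_ne _ _)
    · rw [if_neg (lt_asymm h1)]
      rw [Fin.succAbove_lt_iff_castSucc_lt] at h1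
      rw [Fin.succAbove_of_castSucc_lt _ _ h1]
      simp
  simp_rw [h]
  rw [Finset.sum_add_distrib, sum_gt]
  simp
  ring

theorem sum_k : ∑ k : Fin (n + 1), ((k : ℕ) + 1 : ℝ) = ((n : ℝ) + 1) * (n + 2) / 2 := by
  rw [Fin.sum_univ_eq_sum_range (fun k => ((k : ℕ) + 1 : ℝ)) (n + 1)]
  induction n with
  | zero => simp
  | succ m ih =>
    rw [Finset.sum_range_succ, ih]
    push_cast
    ring

theorem avg_pt_inl (hn : Fintype.card P = n) (x : P) :
    avg (P ⊕ Fin 1) (n + 1) (Sum.inl x) (fun i => (i : ℝ) + 1) =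
      avg P n x (fun i => (i : ℝ) + 1) * (n + 2) / (n + 1) := by
  unfold avg
  rw [sum_pt hn, card_pt hn]
  have h1 := card_ne hn
  have h2 : (n : ℝ) + 1 ≠ 0 := by positivity
  simp_rw [ptF_inl, sum_val]
  rw [← Finset.sum_mul]
  push_cast
  field_simp

theorem avg_pt_inr (hn : Fintype.card P = n) (x : Fin 1) :
    avg (P ⊕ Fin 1) (n + 1) (Sum.inr x) (fun i => (i : ℝ) + 1) = ((n : ℝ) + 2) / 2 := by
  unfold avg
  rw [sum_pt hn, card_pt hn]
  have h1 := card_ne hn
  have h2 : (n : ℝ) + 1 ≠ 0 := by positivity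
  simp_rw [ptF_inr, sum_k]
  rw [Finset.sum_const, Finset.card_univ, nsmul_eq_mul]
  push_cast
  field_simp

theorem pr_pt_inl_inr (hn : Fintype.card P = n) (x : P) (y : Fin 1) :
    pr (P ⊕ Fin 1) (n + 1) (Sum.inl x) (Sum.inr y) =
      1 - avg P n x (fun i => (i : ℝ) + 1) / (n + 1) := by
  unfold pr avg
  rw [sum_pt hn, card_pt hn]
  have h1 := card_ne hn
  have h2 : (n : ℝ) + 1 ≠ 0 := by positivity
  have h0 : ∀ f : LEn P n, ∑ k : Fin (n + 1), (if (ptF hn f k).1 (Sum.inl x) <
      (ptF hn f k).1 (Sum.inr y) then (1 : ℝ) else 0) = (n : ℝ) - (f.1 x : ℕ) := fun f =>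
    sum_lt (f.1 x)
  simp_rw [h0]
  have h3 : ∑ f : LEn P n, ((n : ℝ) - (f.1 x : ℕ)) =
      Fintype.card (LEn P n) * ((n : ℝ) + 1) - ∑ f : LEn P n, (((f.1 x : ℕ) : ℝ) + 1) := by
    rw [eq_sub_iff_add_eq, ← Finset.sum_add_distrib]
    rw [Finset.sum_congr rfl (fun f _ => show ((n : ℝ) - (f.1 x : ℕ)) + (((f.1 x : ℕ) : ℝ) + 1) =
      (n : ℝ) + 1 by ring)]
    rw [Finset.sum_const, Finset.card_univ, nsmul_eq_mul]
  rw [h3]
  push_cast
  field_simp

theorem pr_pt_inr_inl (hn : Fintype.card P = n) (x : P) (y : Fin 1) :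
    pr (P ⊕ Fin 1) (n + 1) (Sum.inr y) (Sum.inl x) =
      avg P n x (fun i => (i : ℝ) + 1) / (n + 1) := by
  unfold pr avg
  rw [sum_pt hn, card_pt hn]
  have h1 := card_ne hn
  have h2 : (n : ℝ) + 1 ≠ 0 := by positivity
  have h0 : ∀ f : LEn P n, ∑ k : Fin (n + 1), (if (ptF hn f k).1 (Sum.inr y) <
      (ptF hn f k).1 (Sum.inl x) then (1 : ℝ) else 0) = ((f.1 x : ℕ) : ℝ) + 1 := fun f =>
    sum_gt (f.1 x)
  simp_rw [h0]
  push_cast
  field_simp

end point

theorem ex_point {ε : ℝ} {w n : ℕ} {S : Set ℝ} (h1 : Ex ε w n S)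
    (h : ∀ s ∈ S, ε * (n + 1) ≤ |s - (n + 1) / 2|) :
    Ex ε (w + 1) (n + 1) {t | t = ((n : ℝ) + 2) / 2 ∨ t * (n + 1) / (n + 2) ∈ S} := by
  obtain ⟨P, iF, iP, hn, hw, hg, hS⟩ := h1
  have hc : Fintype.card (P ⊕ Fin 1) = n + 1 := by simp [hn]
  have hpos : (0 : ℝ) < (n : ℝ) + 1 := by positivity
  have hpos2 : (0 : ℝ) < (n : ℝ) + 2 := by positivity
  have key : ∀ x : P, ε ≤ |1 / 2 - avg P n x (fun i => (i : ℝ) + 1) / (n + 1)| := by
    intro x
    have h2 := h _ (hS x)
    unfold ht at h2
    rw [hn] at h2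
    have h3 : (n : ℝ) + 1 - avg P n x (fun i => (i : ℝ) + 1) - (n + 1) / 2 =
        (1 / 2 - avg P n x (fun i => (i : ℝ) + 1) / (n + 1)) * (n + 1) := by
      field_simp
      ring
    rw [h3, abs_mul, abs_of_pos hpos] at h2
    exact le_of_mul_le_mul_right h2 hpos
  refine ⟨P ⊕ Fin 1, inferInstance, inferInstance, hc, width_point hw, ?_, ?_⟩
  · intro a b hab hba
    rw [hc]
    rcases a with a | a <;> rcases b with b | b
    · rw [pr_disj_inl hn (by simp)]
      have := hg a b (fun hh => hab (Sum.inl_le_inl_iff.2 hh))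
        (fun hh => hba (Sum.inl_le_inl_iff.2 hh))
      rwa [hn] at this
    · rw [pr_pt_inl_inr hn]
      have := key a
      rwa [show 1 - avg P n a (fun i => (i : ℝ) + 1) / (n + 1) - 1 / 2 =
        1 / 2 - avg P n a (fun i => (i : ℝ) + 1) / (n + 1) by ring]
    · rw [pr_pt_inr_inl hn]
      have := key b
      rwa [abs_sub_comm]
    · exact absurd (by rw [Subsingleton.elim a b]) hab
  · intro a
    unfold ht
    rw [hc]
    rcases a with a | a
    · right
      rw [avg_pt_inl hn]
      have h2 := hS a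
      unfold ht at h2
      rw [hn] at h2
      convert h2 using 1
      push_cast
      field_simp
      ring
    · left
      rw [avg_pt_inr hn]
      push_cast
      ring

end Pool.Agent.H581.KS
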